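import Pool.Agent.Helper65.BR.PGoals
import Pool.Agent.Helper56.BR.LSP
import Pool.Agent.Helper14.BR.PPAR

/-!
# Packet BR-PLSP: the parallel machines on numbers form a family computed in linear space
-/

namespace Pool.Agent.Helper39.BR

open Pool.Agent.Helper65.LinSpace Pool.Agent.Helper78.Mpc Pool.Agent.Helper28.Ram
open Pool.Agent.Helper65.BR Finset
open Pool.Agent.Helper59.Ram (LS_CR CM_le_CR pow_ll_le)
open Pool.Agent.Helper28.Long (pow_le_CR ZL ZL_le)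
open Pool.Agent.Helper65.RT (qT CT ls_qT ls_CT ls_ll)
open Pool.Agent.Helper56.BR (bT_le ifz_lt fnN_lt two_pow_CT ls_ZL ls_bT ls_beta ls_pB ls_fB ls_accN
  ls_bvalN ls_lwN)

section

variable (P : Prp)

theorem nxN_lt (u v : ℕ) : P.nxN u v < 2 ^ (P.S + 1) := by
  unfold Prp.nxN
  exact ifz_lt (by positivity) (ifz_lt (by positivity) (fnN_lt _ _ _ _ _ _))

theorem lcN_zero (x Z : ℕ) : P.lcN x Z 0 = P.iniN x (dig (2 ^ (P.H + 1)) Z 0) := rfl

theorem lcN_succ (x Z j : ℕ) :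
    P.lcN x Z (j + 1) = P.nxN (P.lcN x Z j) (dig (2 ^ (P.H + 1)) Z (1 + j)) := rfl

theorem lcN_lt (x Z j : ℕ) : P.lcN x Z j < 2 ^ (P.S + 1) := by
  cases j with
  | zero => exact fnN_lt _ _ _ _ _ _
  | succ j => exact nxN_lt P _ _

end

section

variable {α : Type} [Ctx α]

theorem ls_gP {n T : α → ℕ} (hn : LS n) (hT : LS T) : LS (fun z => gP (n z) (T z)) := by
  unfold gP
  exact LS.add (LS.div (LS.dig (LS.add hn (LS.const 2)) hT (LS.const 3))
    (LS.dig (LS.add hn (LS.const 2)) hT (LS.const 5))) (LS.const 1)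

theorem ls_oP {n T : α → ℕ} (hn : LS n) (hT : LS T) : LS (fun z => oP (n z) (T z)) := by
  unfold oP
  have hg := ls_gP hn hT
  have hb := LS.add (ls_bT 1 hn hT) (LS.const 1)
  have hc := LS.add (ls_bT 2 hn hT) (LS.const 1)
  have hq := LS.mul (LS.const 4) (ls_qT hn)
  have hm := LS.add hn (LS.const 2)
  have h4 := LS.dig hm hT (LS.const 4)
  have h5 := LS.dig hm hT (LS.const 5)
  have hk1 := LS.add h4 (LS.const 1)
  exact LS.mul (LS.lt01 (LS.const 0) h5)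
    (LS.mul (LS.le01 (LS.add (LS.mul hg (LS.mul hb h5)) (LS.mul h5 hb)) hq)
      (LS.mul (LS.le01 (LS.mul h4 (LS.add hg (LS.const 2))) hq)
        (LS.mul (LS.le01 (LS.mul hk1 hc) hq)
          (LS.le01 (LS.mul hk1 (LS.mul hc h5)) (LS.mul (LS.const 4) (LS.add hn (LS.const 1)))))))

variable {e x y T p : α → ℕ}

theorem ls_adN (he : LS e) (hx : LS x) (hT : LS T) {q : α → ℕ} (hq : LS q) :
    LS (fun a => (prp (e a) (x a) (y a) (T a) (p a)).adN (q a)) := by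
  have h : LS (fun z => (Nat.unpair (Nat.unpair (e z)).1).2) := by fun_prop
  exact ls_fB 0 hx hT h hq

theorem ls_rgN (he : LS e) (hx : LS x) (hT : LS T) {q : α → ℕ} (hq : LS q) :
    LS (fun a => (prp (e a) (x a) (y a) (T a) (p a)).rgN (q a)) := by
  have h : LS (fun z => (Nat.unpair (Nat.unpair (e z)).2).1) := by fun_prop
  exact ls_fB 2 hx hT h hq

theorem ls_inN (he : LS e) (hx : LS x) (hy : LS y) (hT : LS T) {q v : α → ℕ} (hq : LS q)
    (hv : LS v) :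
    LS (fun a => (prp (e a) (x a) (y a) (T a) (p a)).inN (q a) (v a)) := by
  have hb := ls_bvalN (ls_adN (y := y) (p := p) he hx hT hq)
  exact LS.catN (LS.sdN hq) (LS.catN (ls_lwN (LS.letN hx hb)) (LS.catN (ls_lwN (LS.letN hy hb)) hv))

theorem ls_nxN (he : LS e) (hx : LS x) (hy : LS y) (hT : LS T) {q v : α → ℕ} (hq : LS q)
    (hv : LS v) :
    LS (fun a => (prp (e a) (x a) (y a) (T a) (p a)).nxN (q a) (v a)) := by
  have h : LS (fun z => (Nat.unpair (Nat.unpair (Nat.unpair (e z)).2).2).1) := by fun_prop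
  exact LS.ifz (ls_adN (y := y) (p := p) he hx hT hq) (LS.const 0)
    (LS.ifz (ls_rgN (y := y) (p := p) he hx hT hq) (LS.const 0)
      (ls_fB 0 hx hT h (ls_inN (p := p) he hx hy hT hq hv)))

theorem ls_iniN (he : LS e) (hx : LS x) (hT : LS T) (hp : LS p) {u c : α → ℕ} (hu : LS u)
    (hc : LS c) :
    LS (fun a => (prp (e a) (x a) (y a) (T a) (p a)).iniN (u a) (c a)) := by
  have h : LS (fun z => (Nat.unpair (Nat.unpair (e z)).1).1) := by fun_prop
  exact ls_fB 0 hx hT h (LS.catN (LS.sdN hp) (LS.catN (LS.sdN hu) hc))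

theorem ls_outN (he : LS e) (hx : LS x) (hT : LS T) {u : α → ℕ} (hu : LS u) :
    LS (fun a => (prp (e a) (x a) (y a) (T a) (p a)).outN (u a)) := by
  have h : LS (fun z => (Nat.unpair (Nat.unpair (Nat.unpair (e z)).2).2).2) := by fun_prop
  exact ls_fB 1 hx hT h hu

theorem ls_lcN (he : LS e) (hx : LS x) (hy : LS y) (hT : LS T) (hp : LS p) {u Z i : α → ℕ}
    (hu : LS u) (hZ : LS Z) (hi : LS i) :
    LS (fun a => (prp (e a) (x a) (y a) (T a) (p a)).lcN (u a) (Z a) (i a)) := by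
  refine LS.nrec
    (G := fun a => (prp (e a) (x a) (y a) (T a) (p a)).iniN (u a)
      (dig (2 ^ (bT (Nat.log 2 (x a)) (T a) 1 + 1)) (Z a) 0)) (N := i) (C := fun a => CR (x a))
    (K := fun a j r => (prp (e a) (x a) (y a) (T a) (p a)).nxN r
      (dig (2 ^ (bT (Nat.log 2 (x a)) (T a) 1 + 1)) (Z a) (1 + j)))
    (ls_iniN he hx hT hp hu (LS.dig (ls_pB 1 hx hT) hZ (LS.const 0))) hi (LS_CR hx) ?_ ?_
  · have he' : LS (fun z : α × ℕ × ℕ => e z.1) := LS.comp he LS.fst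
    have hx' : LS (fun z : α × ℕ × ℕ => x z.1) := LS.comp hx LS.fst
    have hy' : LS (fun z : α × ℕ × ℕ => y z.1) := LS.comp hy LS.fst
    have hT' : LS (fun z : α × ℕ × ℕ => T z.1) := LS.comp hT LS.fst
    have hZ' : LS (fun z : α × ℕ × ℕ => Z z.1) := LS.comp hZ LS.fst
    have hj : LS (fun z : α × ℕ × ℕ => z.2.1) := by fun_prop
    have hr : LS (fun z : α × ℕ × ℕ => z.2.2) := by fun_prop
    exact ls_nxN (p := fun z : α × ℕ × ℕ => p z.1) he' hx' hy' hT' hr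
      (LS.dig (ls_pB 1 hx' hT') hZ' (LS.add (LS.const 1) hj))
  · intro a j _
    refine (lcN_lt (prp (e a) (x a) (y a) (T a) (p a)) (u a) (Z a) j).le.trans (pow_le_CR ?_)
    have h := bT_le (Nat.log 2 (x a)) (T a) 0
    show bT (Nat.log 2 (x a)) (T a) 0 + 1 ≤ _
    omega

end

/-- Packet BR-PLSP. -/
theorem plsp : PLSP_stmt := by
  intro α _ e x y T p he hx hy hT hp hb
  have hn : LS (fun z => Nat.log 2 (x z)) := LS.log2 hx
  have ho := ls_oP hn hT
  have hg := ls_gP hn hT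
  have hm := LS.add hn (LS.const 2)
  have e2 : LS (fun z : α × ℕ × ℕ => e z.1) := LS.comp he LS.fst
  have x2 : LS (fun z : α × ℕ × ℕ => x z.1) := LS.comp hx LS.fst
  have y2 : LS (fun z : α × ℕ × ℕ => y z.1) := LS.comp hy LS.fst
  have T2 : LS (fun z : α × ℕ × ℕ => T z.1) := LS.comp hT LS.fst
  have p2 : LS (fun z : α × ℕ × ℕ => p z.1) := LS.comp hp LS.fst
  have q2 : LS (fun z : α × ℕ × ℕ => z.2.1) := by fun_prop
  have v2 : LS (fun z : α × ℕ × ℕ => z.2.2) := by fun_prop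
  have R2 : LS (fun z : α × ℕ × ℕ => dig (Nat.log 2 (x z.1) + 2) (T z.1) 3) :=
    LS.dig (LS.add (LS.log2 x2) (LS.const 2)) T2 (LS.const 3)
  have e3 : LS (fun z : α × ℕ × ℕ × ℕ => e z.1) := LS.comp he LS.fst
  have x3 : LS (fun z : α × ℕ × ℕ × ℕ => x z.1) := LS.comp hx LS.fst
  have y3 : LS (fun z : α × ℕ × ℕ × ℕ => y z.1) := LS.comp hy LS.fst
  have T3 : LS (fun z : α × ℕ × ℕ × ℕ => T z.1) := LS.comp hT LS.fst
  have p3 : LS (fun z : α × ℕ × ℕ × ℕ => p z.1) := LS.comp hp LS.fst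
  have q3 : LS (fun z : α × ℕ × ℕ × ℕ => z.2.1) := by fun_prop
  have i3 : LS (fun z : α × ℕ × ℕ × ℕ => z.2.2.1) := by fun_prop
  have v3 : LS (fun z : α × ℕ × ℕ × ℕ => z.2.2.2) := by fun_prop
  have x4 : LS (fun z : α × ℕ × ℕ × ℕ × ℕ => x z.1) := LS.comp hx LS.fst
  have T4 : LS (fun z : α × ℕ × ℕ × ℕ × ℕ => T z.1) := LS.comp hT LS.fst
  have c4 : LS (fun z : α × ℕ × ℕ × ℕ × ℕ => z.2.2.2.2) := by fun_prop
  exact
    { σ := LS.add (ls_bT 2 hn hT) (LS.const 1)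
      a := LS.add (ls_bT 1 hn hT) (LS.const 1)
      b := LS.add (ls_bT 1 hn hT) (LS.const 1)
      E := LS.ifz ho (LS.const 1) (LS.dig hm hT (LS.const 5))
      G := LS.ifz ho (LS.const 1) hg
      K := LS.ifz ho (LS.const 0) (LS.dig hm hT (LS.const 4))
      q := LS.mod (LS.ifz i3 q3 (ls_rgN (y := fun z : α × ℕ × ℕ × ℕ => y z.1)
        (p := fun z : α × ℕ × ℕ × ℕ => p z.1) e3 x3 T3
        (ls_lcN e3 x3 y3 T3 p3 q3 v3 (LS.sub i3 (LS.const 1))))) (ls_pB 2 x3 T3)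
      g := LS.mod c4 (ls_pB 1 x4 T4)
      o := ls_outN (y := fun z : α × ℕ × ℕ => y z.1) (p := fun z : α × ℕ × ℕ => p z.1) e2 x2 T2
        (ls_lcN e2 x2 y2 T2 p2 q2 v2 R2)
      t0 := LS.const 1
      root := LS.mod hp (ls_pB 2 hx hT)
      bd := ls_CT hx
      ok := fun z => (Pool.Agent.Helper14.BR.ppar _ _ _ _ _).2.1
      hC := fun z => (hb z).1
      hS := fun z => (hb z).2 }

end Pool.Agent.Helper39.BR
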